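import Mathlib

set_option autoImplicit false

/-! Hom-Ext quivers of exceptional collections of modules over a path algebra. -/

namespace Pool.Agent.R330.HE

universe u

/-- A finite quiver with vertices `Fin n` and arrows `Fin m`. -/
structure FQ where
  n : ℕ
  m : ℕ
  src : Fin m → Fin n
  tgt : Fin m → Fin n

/-- No oriented cycles: the vertices can be ranked so that all arrows increase the rank. -/
def FQ.Acyclic (Q : FQ) : Prop := ∃ r : Fin Q.n → ℕ, ∀ a, r (Q.src a) < r (Q.tgt a)

/-- A finite dimensional representation of `Q` over `k` (a `kQ`-module): a finite set `idx v`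
(a basis of the space at `v`) for each vertex and a matrix for each arrow. -/
structure Rep (k : Type u) [Field k] (Q : FQ) where
  idx : Fin Q.n → Type
  [fin : ∀ v, Fintype (idx v)]
  [dec : ∀ v, DecidableEq (idx v)]
  mat : ∀ a, Matrix (idx (Q.tgt a)) (idx (Q.src a)) k

attribute [instance] Rep.fin Rep.dec

variable {k : Type u} [Field k] {Q : FQ}

/-- Families of linear maps `V_v → W_v`, `v` a vertex. -/
def C0 (V W : Rep k Q) : Type u := ∀ v, Matrix (W.idx v) (V.idx v) k

/-- Families of linear maps `V_{s(a)} → W_{t(a)}`, `a` an arrow. -/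
def C1 (V W : Rep k Q) : Type u := ∀ a, Matrix (W.idx (Q.tgt a)) (V.idx (Q.src a)) k

instance (V W : Rep k Q) : AddCommGroup (C0 V W) :=
  inferInstanceAs (AddCommGroup (∀ v, Matrix (W.idx v) (V.idx v) k))

instance (V W : Rep k Q) : Module k (C0 V W) :=
  inferInstanceAs (Module k (∀ v, Matrix (W.idx v) (V.idx v) k))

instance (V W : Rep k Q) : AddCommGroup (C1 V W) :=
  inferInstanceAs (AddCommGroup (∀ a, Matrix (W.idx (Q.tgt a)) (V.idx (Q.src a)) k))

instance (V W : Rep k Q) : Module k (C1 V W) :=
  inferInstanceAs (Module k (∀ a, Matrix (W.idx (Q.tgt a)) (V.idx (Q.src a)) k))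

/-- `f` is a morphism of representations `V → W`. -/
def IsHom {V W : Rep k Q} (f : C0 V W) : Prop :=
  ∀ a, f (Q.tgt a) * V.mat a = W.mat a * f (Q.src a)

/-- The standard map `C0 → C1`, with kernel `Hom(V,W)` and cokernel `Ext^1(V,W)`: the class of `ξ`
is the extension `0 → W → E → V → 0` with the matrices `(W.mat a, ξ a; 0, V.mat a)`. -/
def cob {V W : Rep k Q} (φ : C0 V W) : C1 V W :=
  fun a => φ (Q.tgt a) * V.mat a - W.mat a * φ (Q.src a)

/-- `ξ` represents the zero element of `Ext^1(V,W)`. -/
def IsCob {V W : Rep k Q} (ξ : C1 V W) : Prop := ∃ φ : C0 V W, cob φ = ξ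

/-- the identity -/
def idH (V : Rep k Q) : C0 V V := fun _ => 1

/-- composition: first `f`, then `g` -/
def comp {U V W : Rep k Q} (f : C0 U V) (g : C0 V W) : C0 U W := fun v => g v * f v

/-- pull back of extensions along a morphism -/
def pull {U V W : Rep k Q} (f : C0 U V) (ξ : C1 V W) : C1 U W := fun a => ξ a * f (Q.src a)

/-- push forward of extensions along a morphism -/
def push {V W X : Rep k Q} (ξ : C1 V W) (g : C0 W X) : C1 V X := fun a => g (Q.tgt a) * ξ a

/-- indecomposable: nonzero, and the identity is the only nonzero idempotent endomorphism -/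
def Indec (V : Rep k Q) : Prop :=
  idH V ≠ 0 ∧ ∀ e : C0 V V, IsHom e → comp e e = e → e = 0 ∨ e = idH V

/-- exceptional module: indecomposable with `Ext^1(V,V) = 0` -/
def Exceptional (V : Rep k Q) : Prop := Indec V ∧ ∀ ξ : C1 V V, IsCob ξ

/-- exceptional sequence: no morphisms and no extensions from a member to an earlier one -/
def IsExcSeq {m : ℕ} (χ : Fin m → Rep k Q) : Prop :=
  (∀ i, Exceptional (χ i)) ∧
    ∀ i j, j < i → (∀ f : C0 (χ i) (χ j), IsHom f → f = 0) ∧ ∀ ξ : C1 (χ i) (χ j), IsCob ξ

/-- exceptional collection: some ordering is an exceptional sequence -/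
def IsExcColl {m : ℕ} (χ : Fin m → Rep k Q) : Prop :=
  ∃ σ : Equiv.Perm (Fin m), IsExcSeq (χ ∘ σ)

/-- radical morphisms: `f : V → W` such that `g ∘ f` is nilpotent for all morphisms `g : W → V`.
For indecomposable `V`, `W` these are the non-isomorphisms. -/
def IsRad {V W : Rep k Q} (f : C0 V W) : Prop :=
  IsHom f ∧ ∀ g : C0 W V, IsHom g → ∀ v, IsNilpotent (g v * f v)

variable {m : ℕ} (χ : Fin m → Rep k Q)

/-- the radical morphisms `X_i → X_j` (all morphisms if `i ≠ j`) -/
def radH (i j : Fin m) : Submodule k (C0 (χ i) (χ j)) := Submodule.span k {f | IsRad f}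

/-- the morphisms factoring through other members or through radical endomorphisms -/
def factH (i j : Fin m) : Submodule k (C0 (χ i) (χ j)) :=
  Submodule.span k {f | ∃ (l : Fin m) (g : C0 (χ i) (χ l)) (h : C0 (χ l) (χ j)),
    IsRad g ∧ IsRad h ∧ f = comp g h}

/-- the extensions (representatives of their classes) factoring through other members or through
radical endomorphisms -/
def factE (i j : Fin m) : Submodule k (C1 (χ i) (χ j)) :=
  Submodule.span k {ξ | IsCob ξ ∨
    (∃ (l : Fin m) (g : C0 (χ i) (χ l)) (η : C1 (χ l) (χ j)), IsRad g ∧ ξ = pull g η) ∨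
    ∃ (l : Fin m) (η : C1 (χ i) (χ l)) (h : C0 (χ l) (χ j)), IsRad h ∧ ξ = push η h}

/-- `b` is a basis of the subspace `Rd` modulo its subspace `N` -/
def BasisMod {V : Type u} [AddCommGroup V] [Module k V] {n : ℕ} (b : Fin n → V)
    (N Rd : Submodule k V) : Prop :=
  (∀ c : Fin n → k, ∑ a, c a • b a ∈ N → c = 0) ∧ Submodule.span k (Set.range b) ⊔ N = Rd

/-- A Hom-Ext quiver of the collection `χ`: the vertices are the members; the arrows `X_i → X_j`
are `nH i j` morphisms, a basis of the radical morphisms modulo the factoring ones, and `nE i j`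
extensions, a basis of the extensions modulo the factoring ones. -/
structure HEQ where
  nH : Fin m → Fin m → ℕ
  nE : Fin m → Fin m → ℕ
  h : ∀ i j, Fin (nH i j) → C0 (χ i) (χ j)
  e : ∀ i j, Fin (nE i j) → C1 (χ i) (χ j)
  h_basis : ∀ i j, BasisMod (h i j) (factH χ i j) (radH χ i j)
  e_basis : ∀ i j, BasisMod (e i j) (factE χ i j) ⊤

variable {χ}

/-- arrows of the Hom-Ext quiver -/
def HEQ.Arr (D : HEQ χ) (i j : Fin m) : Type := Fin (D.nH i j) ⊕ Fin (D.nE i j)

/-- paths in a quiver with vertices `Fin m` and arrows `Arr i j` -/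
inductive Path (Arr : Fin m → Fin m → Type) (i : Fin m) : Fin m → Type
  | nil : Path Arr i i
  | cons {j l : Fin m} (p : Path Arr i j) (a : Arr j l) : Path Arr i l

/-- length of a path -/
def Path.len {Arr : Fin m → Fin m → Type} {i : Fin m} : {j : Fin m} → Path Arr i j → ℕ
  | _, .nil => 0
  | _, .cons p _ => p.len + 1

/-- concatenation of paths: first `p`, then `q` -/
def Path.append {Arr : Fin m → Fin m → Type} {i j : Fin m} (p : Path Arr i j) :
    {l : Fin m} → Path Arr j l → Path Arr i l
  | _, .nil => p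
  | _, .cons q a => .cons (p.append q) a

/-- the value of an arrow, as a morphism plus an extension -/
def HEQ.aval (D : HEQ χ) {i j : Fin m} : D.Arr i j → C0 (χ i) (χ j) × C1 (χ i) (χ j)
  | .inl a => (D.h i j a, 0)
  | .inr a => (0, D.e i j a)

/-- composition of pairs (morphism plus extension): first `x`, then `y`; the composition of two
extensions is `0` (in `D^b(mod kQ)`, as `kQ` is hereditary) -/
def vcomp {U V W : Rep k Q} (x : C0 U V × C1 U V) (y : C0 V W × C1 V W) : C0 U W × C1 U W :=
  (comp x.1 y.1, push x.2 y.1 + pull x.1 y.2)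

/-- the value of a path: compose the arrows; the composition of two extensions is `0`
(in `D^b(mod kQ)`, as `kQ` is hereditary) -/
def HEQ.val (D : HEQ χ) {i : Fin m} :
    {j : Fin m} → Path D.Arr i j → C0 (χ i) (χ j) × C1 (χ i) (χ j)
  | _, .nil => (idH _, 0)
  | _, .cons p a => vcomp (HEQ.val D p) (D.aval a)

/-- the value of a linear combination of paths from `i` to `j` -/
noncomputable def HEQ.valF (D : HEQ χ) {i j : Fin m} (F : Path D.Arr i j →₀ k) :
    C0 (χ i) (χ j) × C1 (χ i) (χ j) := F.sum fun p c => c • D.val p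

/-- `F ∈ R`: the linear combination `F` of paths from `i` to `j` has value `0` in
`Hom(X_i,X_j) ⊕ Ext^1(X_i,X_j)` -/
def HEQ.InR (D : HEQ χ) {i j : Fin m} (F : Path D.Arr i j →₀ k) : Prop :=
  (D.valF F).1 = 0 ∧ IsCob (D.valF F).2

/-- `p` contains a member of `S` as a subpath. -/
def Contains {Arr : Fin m → Fin m → Type} (S : ∀ i j, Set (Path Arr i j)) {i j : Fin m}
    (p : Path Arr i j) : Prop :=
  ∃ (i' j' : Fin m) (p' : Path Arr i i') (s : Path Arr i' j') (q : Path Arr j' j),
    s ∈ S i' j' ∧ p = (p'.append s).append q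

/-- `R` is generated by a set `S` of monomial relations, that is, of paths of length `≥ 2`: the
elements of `R` are the linear combinations of paths containing a member of `S`. -/
def HEQ.GenByMonomials (D : HEQ χ) : Prop :=
  ∃ S : ∀ i j, Set (Path D.Arr i j), (∀ i j, ∀ s ∈ S i j, 2 ≤ s.len) ∧
    ∀ i j (F : Path D.Arr i j →₀ k), D.InR F ↔ ∀ p ∈ F.support, Contains S p

end Pool.Agent.R330.HE
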