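import Pool.Agent.R330.HE.Gen

set_option autoImplicit false

/-! The commutative square as a Hom-Ext quiver with relations in type `D_4`. -/

namespace Pool.Agent.R330.HE

universe u

/-- `D_4` with three arrows into the centre `0` -/
abbrev D4 : FQ := ⟨4, 3, fun a => a.succ, fun _ => 0⟩

lemma D4_acyclic : D4.Acyclic := by
  refine ⟨fun v : Fin 4 => if v = 0 then 1 else 0, fun a : Fin 3 => ?_⟩
  simp

variable (k : Type u) [Field k]

/-- thin representations -/
abbrev thin (S : Fin 4 → Bool) : Rep k D4 where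
  idx v := PLift (S v = true)
  fin v := inferInstance
  dec v := fun a b => isTrue (by cases a; cases b; rfl)
  mat _ := fun _ _ => 1

variable {k}

lemma sumP (p : Prop) [Decidable p] [Fintype (PLift p)] (g : PLift p → k) :
    ∑ x, g x = if h : p then g ⟨h⟩ else 0 := by
  split_ifs with h
  · have : Unique (PLift p) := ⟨⟨⟨h⟩⟩, fun x => by cases x; rfl⟩
    rw [Fintype.sum_unique]
  · have : IsEmpty (PLift p) := ⟨fun x => h x.down⟩
    rw [Fintype.sum_empty]

/-- the coefficient at the vertex `v` -/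
def cf {S S' : Fin 4 → Bool} (f : C0 (thin k S) (thin k S')) (v : Fin 4) : k :=
  if h : S v = true ∧ S' v = true then f v ⟨h.2⟩ ⟨h.1⟩ else 0

lemma cf_eq {S S' : Fin 4 → Bool} (f : C0 (thin k S) (thin k S')) (v : Fin 4)
    (x : PLift (S' v = true)) (y : PLift (S v = true)) : f v x y = cf f v := by
  rw [cf, dif_pos ⟨y.down, x.down⟩]

lemma cf_of_not {S S' : Fin 4 → Bool} (f : C0 (thin k S) (thin k S')) (v : Fin 4)
    (h : ¬ (S v = true ∧ S' v = true)) : cf f v = 0 := dif_neg h

lemma eq_zero_of_cf {S S' : Fin 4 → Bool} (f : C0 (thin k S) (thin k S'))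
    (h : ∀ v, cf f v = 0) : f = 0 := by
  funext v
  refine Matrix.ext fun x y => ?_
  exact (cf_eq f v x y).trans (h v)

lemma hom_cond {S S' : Fin 4 → Bool} {f : C0 (thin k S) (thin k S')} (hf : IsHom f) (a : Fin 3)
    (h0 : S' 0 = true) (ha : S a.succ = true) : cf f 0 = cf f a.succ := by
  have h1 := congrFun (congrFun (hf a) ⟨h0⟩) ⟨ha⟩
  rw [Matrix.mul_apply, Matrix.mul_apply] at h1
  have e1 : ∑ j : PLift (S 0 = true), f 0 ⟨h0⟩ j * (1 : k) = cf f 0 := by
    rw [sumP]
    split_ifs with h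
    · exact (mul_one _).trans (cf_eq f 0 ⟨h0⟩ ⟨h⟩)
    · rw [cf_of_not _ _ (fun h' => h h'.1)]
  have e2 : ∑ j : PLift (S' a.succ = true), (1 : k) * f a.succ j ⟨ha⟩ = cf f a.succ := by
    rw [sumP]
    split_ifs with h
    · exact (one_mul _).trans (cf_eq f a.succ ⟨h⟩ ⟨ha⟩)
    · rw [cf_of_not _ _ (fun h' => h h'.2)]
  exact e1.symm.trans (h1.trans e2)

/-- the family with given coefficients -/
def mk (S S' : Fin 4 → Bool) (φ : Fin 4 → k) : C0 (thin k S) (thin k S') := fun v _ _ => φ v

lemma sum_left (S : Fin 4 → Bool) (v : Fin 4) (c : k) :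
    ∑ _j : PLift (S v = true), c * (1 : k) = if S v = true then c else 0 := by
  rw [sumP]
  split_ifs with h
  · rw [mul_one]
  · rfl

lemma sum_right (S : Fin 4 → Bool) (v : Fin 4) (c : k) :
    ∑ _j : PLift (S v = true), (1 : k) * c = if S v = true then c else 0 := by
  rw [sumP]
  split_ifs with h
  · rw [one_mul]
  · rfl

/-- the family with given coefficients is a morphism -/
lemma mk_hom {S S' : Fin 4 → Bool} (φ : Fin 4 → k)
    (h : ∀ a : Fin 3, S' 0 = true → S a.succ = true →
      (if S 0 = true then φ 0 else 0) = (if S' a.succ = true then φ a.succ else 0)) :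
    IsHom (mk S S' φ) := by
  intro a
  refine Matrix.ext fun x y => ?_
  rw [Matrix.mul_apply, Matrix.mul_apply]
  exact (sum_left S 0 (φ 0)).trans ((h a x.down y.down).trans (sum_right S' a.succ _).symm)

lemma cf_comp {S S' S'' : Fin 4 → Bool} (f : C0 (thin k S) (thin k S'))
    (g : C0 (thin k S') (thin k S'')) (v : Fin 4) :
    cf (comp f g) v = cf g v * cf f v := by
  by_cases h : S v = true ∧ S'' v = true
  · rw [cf, dif_pos h]
    have e : ∑ j : PLift (S' v = true), g v ⟨h.2⟩ j * f v j ⟨h.1⟩ = cf g v * cf f v := by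
      rw [sumP]
      split_ifs with h'
      · exact congrArg₂ (· * ·) (cf_eq g v ⟨h.2⟩ ⟨h'⟩) (cf_eq f v ⟨h'⟩ ⟨h.1⟩)
      · rw [cf_of_not f v (fun h2 => h' h2.2), mul_zero]
    exact (Matrix.mul_apply).trans e
  · rw [cf_of_not _ v h]
    by_cases h1 : S v = true
    · rw [cf_of_not g v (fun h2 => h ⟨h1, h2.2⟩), zero_mul]
    · rw [cf_of_not f v (fun h2 => h1 h2.1), mul_zero]

lemma ext_zero {S S' : Fin 4 → Bool}
    (h : ∀ c : Fin 3 → k, ∃ φ : Fin 4 → k, ∀ a : Fin 3, S' 0 = true → S a.succ = true →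
      (if S 0 = true then φ 0 else 0) - (if S' a.succ = true then φ a.succ else 0) = c a)
    (ξ : C1 (thin k S) (thin k S')) : IsCob ξ := by
  obtain ⟨φ, hφ⟩ := h fun a => if h : S' 0 = true ∧ S a.succ = true then
    ξ a ⟨h.1⟩ ⟨h.2⟩ else 0
  refine ⟨mk S S' φ, ?_⟩
  funext a
  refine Matrix.ext fun x y => ?_
  have e0 := hφ a x.down y.down
  rw [dif_pos ⟨x.down, y.down⟩] at e0
  have e3 : (cob (mk S S' φ)) a x y
      = (∑ j : PLift (S 0 = true), φ 0 * (1 : k))
        - ∑ j : PLift (S' a.succ = true), (1 : k) * φ a.succ := rfl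
  rw [e3, sum_left, sum_right]
  exact e0

/-- the four supports -/
def Sp : Fin 4 → Fin 4 → Bool :=
  ![![true, true, false, false], ![true, true, false, true], ![true, true, true, false],
    ![false, true, false, false]]

variable (k) in
/-- the tilting module -/
def X (i : Fin 4) : Rep k D4 := thin k (Sp i)

lemma X_ext (i j : Fin 4) (ξ : C1 (X k i) (X k j)) : IsCob ξ := by
  apply ext_zero
  intro c
  refine ⟨fun v => if v = 0 then (if Sp i 3 = true ∧ Sp j 3 = false then c 2 else
      if Sp i 2 = true ∧ Sp j 2 = false then c 1 else 0)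
    else (if Sp i 0 = true then (if Sp i 3 = true ∧ Sp j 3 = false then c 2 else
      if Sp i 2 = true ∧ Sp j 2 = false then c 1 else 0) else 0)
      - (if v = 1 then c 0 else if v = 2 then c 1 else c 2), ?_⟩
  intro a
  fin_cases i <;> fin_cases j <;> fin_cases a <;> simp [Sp]

end Pool.Agent.R330.HE
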