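import Pool.Agent.R330.HE.Main

set_option autoImplicit false

/-! The relations of the Hom-Ext quiver of the example are not generated by monomials. -/

namespace Pool.Agent.R330.HE

universe u

variable {k : Type u} [Field k]

lemma factH_bot {i j : Fin 4}
    (h : ∀ l : Fin 4, l ≠ i → l ≠ j → (l < i ∨ j < l ∨ (i = 1 ∧ l = 2) ∨ (l = 1 ∧ j = 2))) :
    factH (X k) i j = ⊥ := by
  rw [factH, Submodule.span_eq_bot]
  rintro f ⟨l, g, h', hg, hh, rfl⟩
  have hz1 : g = 0 → comp g h' = 0 := by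
    rintro rfl
    funext v
    exact Matrix.mul_zero _
  have hz2 : h' = 0 → comp g h' = 0 := by
    rintro rfl
    funext v
    exact Matrix.zero_mul _
  by_cases h1 : l = i
  · subst h1
    exact hz1 (rad_end hg)
  by_cases h2 : l = j
  · subst h2
    exact hz2 (rad_end hh)
  rcases h l h1 h2 with h3 | h3 | h3 | h3
  · exact hz1 (X_hom_zero i l (Or.inl h3) hg.1)
  · exact hz2 (X_hom_zero l j (Or.inl h3) hh.1)
  · exact hz1 (X_hom_zero i l (Or.inr h3) hg.1)
  · exact hz2 (X_hom_zero l j (Or.inr h3) hh.1)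

/-- a nonzero arrow -/
lemma exists_arrow (D : HEQ (X k)) {i j : Fin 4} (hij : i < j)
    (h : ∀ l : Fin 4, l ≠ i → l ≠ j → (l < i ∨ j < l ∨ (i = 1 ∧ l = 2) ∨ (l = 1 ∧ j = 2)))
    {u : C0 (X k i) (X k j)} (huh : IsHom u) (hu : u ≠ 0) :
    ∃ a : Fin (D.nH i j), D.h i j a ≠ 0 ∧ IsHom (D.h i j a) := by
  have h1 := (D.h_basis i j).2
  rw [factH_bot h, sup_bot_eq] at h1
  have hhom : ∀ f ∈ radH (X k) i j, IsHom f := by
    intro f hf
    induction hf using Submodule.span_induction with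
    | mem f hf => exact hf.1
    | zero =>
      intro a
      exact (Matrix.zero_mul _).trans (Matrix.mul_zero _).symm
    | add f g _ _ hf hg =>
      intro a
      exact (Matrix.add_mul _ _ _).trans ((congrArg₂ (· + ·) (hf a) (hg a)).trans
        (Matrix.mul_add _ _ _).symm)
    | smul c f _ hf =>
      intro a
      exact (Matrix.smul_mul _ _ _).trans ((congrArg (c • ·) (hf a)).trans
        (Matrix.mul_smul _ _ _).symm)
  by_contra hcon
  push Not at hcon
  have h2 : u ∈ radH (X k) i j := by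
    apply Submodule.subset_span
    refine ⟨huh, fun g hg v => ?_⟩
    have : g = 0 := X_hom_zero j i (Or.inl hij) hg
    subst this
    refine ⟨1, ?_⟩
    rw [pow_one]
    exact Matrix.zero_mul _
  have h3 : Submodule.span k (Set.range (D.h i j)) = ⊥ := by
    rw [Submodule.span_eq_bot]
    rintro _ ⟨a, rfl⟩
    by_contra h4
    exact hcon a h4 (hhom _ (by rw [← h1]; exact Submodule.subset_span ⟨a, rfl⟩))
  rw [← h1, h3, Submodule.mem_bot] at h2
  exact hu h2

/-- the coefficient -/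
abbrev cx {i j : Fin 4} (f : C0 (X k i) (X k j)) : k := cf (S := Sp i) (S' := Sp j) f 1

lemma cf_one_ne {i j : Fin 4} {f : C0 (X k i) (X k j)} (hfh : IsHom f) (hf : f ≠ 0)
    (h : ∀ v, Sp i v = true → Sp j v = true →
      v = 1 ∨ (Sp j 0 = true ∧ v = 0) ∨ (Sp j 0 = true ∧ v ≠ 0)) : cx f ≠ 0 := by
  intro h0
  apply hf
  apply eq_zero_of_cf (S := Sp i) (S' := Sp j)
  have hz : Sp j 0 = true → cf (S := Sp i) (S' := Sp j) f 0 = 0 := by
    intro hj
    rw [hom_cond (S := Sp i) (S' := Sp j) hfh 0 hj (Sp_one i)]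
    exact h0
  intro v
  by_cases hv : Sp i v = true ∧ Sp j v = true
  · rcases h v hv.1 hv.2 with rfl | ⟨h1, rfl⟩ | ⟨h1, h2⟩
    · exact h0
    · exact hz h1
    · obtain ⟨a, rfl⟩ := Fin.exists_succ_eq.2 h2
      rw [← hom_cond (S := Sp i) (S' := Sp j) hfh a h1 hv.1]
      exact hz h1
  · exact cf_of_not _ _ hv

/-- the test morphisms -/
lemma exists_hom {i j : Fin 4}
    (h : ∀ a : Fin 3, Sp j 0 = true → Sp i a.succ = true → Sp i 0 = true ∧ Sp j a.succ = true) :
    ∃ u : C0 (X k i) (X k j), IsHom u ∧ u ≠ 0 := by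
  refine ⟨mk (Sp i) (Sp j) (fun _ => 1), ?_, fun hu => ?_⟩
  · apply mk_hom
    intro a h1 h2
    rw [if_pos (h a h1 h2).1, if_pos (h a h1 h2).2]
  have h1 : cf (mk (k := k) (Sp i) (Sp j) fun _ => 1) 1 = 1 := by
    rw [cf, dif_pos ⟨Sp_one i, Sp_one j⟩]
    rfl
  have h3 : mk (k := k) (Sp i) (Sp j) (fun _ => 1) = 0 := hu
  rw [h3, cf_zero] at h1
  exact zero_ne_one h1

theorem not_monomial (D : HEQ (X k)) : ¬ D.GenByMonomials := by
  rintro ⟨S, -, hS⟩
  obtain ⟨u1, hu1, hu1'⟩ := exists_hom (k := k) (i := 0) (j := 1) (by decide)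
  obtain ⟨u2, hu2, hu2'⟩ := exists_hom (k := k) (i := 0) (j := 2) (by decide)
  obtain ⟨u3, hu3, hu3'⟩ := exists_hom (k := k) (i := 1) (j := 3) (by decide)
  obtain ⟨u4, hu4, hu4'⟩ := exists_hom (k := k) (i := 2) (j := 3) (by decide)
  obtain ⟨a, ha, hah⟩ := exists_arrow D (i := 0) (j := 1) (by decide) (by decide) hu1 hu1'
  obtain ⟨c, hc, hch⟩ := exists_arrow D (i := 0) (j := 2) (by decide) (by decide) hu2 hu2'
  obtain ⟨b, hb, hbh⟩ := exists_arrow D (i := 1) (j := 3) (by decide) (by decide) hu3 hu3'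
  obtain ⟨d, hd, hdh⟩ := exists_arrow D (i := 2) (j := 3) (by decide) (by decide) hu4 hu4'
  have ha' := cf_one_ne hah ha (by decide)
  have hb' := cf_one_ne hbh hb (by decide)
  have hc' := cf_one_ne hch hc (by decide)
  have hd' := cf_one_ne hdh hd (by decide)
  let p : Path D.Arr 0 3 := .cons (.cons .nil (.inl a)) (.inl b)
  let q : Path D.Arr 0 3 := .cons (.cons .nil (.inl c)) (.inl d)
  have hpq : p ≠ q := by
    intro h
    injection h with h1 h2
    exact absurd h1 (by decide)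
  have hid : ∀ {i j : Fin 4} (f : C0 (X k i) (X k j)), comp (idH _) f = f := by
    intro i j f
    funext v
    exact Matrix.mul_one _
  have vp : (D.val p).1 = comp (D.h 0 1 a) (D.h 1 3 b) := by
    simp only [p, HEQ.val, vcomp, HEQ.aval, hid]
  have vq : (D.val q).1 = comp (D.h 0 2 c) (D.h 2 3 d) := by
    simp only [q, HEQ.val, vcomp, HEQ.aval, hid]
  obtain ⟨x, hx⟩ : ∃ x, x = cx (D.val p).1 := ⟨_, rfl⟩
  obtain ⟨y, hy⟩ : ∃ y, y = cx (D.val q).1 := ⟨_, rfl⟩
  have hx0 : x ≠ 0 := by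
    rw [hx, vp]
    have := cf_comp (S := Sp 0) (S' := Sp 1) (S'' := Sp 3) (D.h 0 1 a) (D.h 1 3 b) 1
    exact fun h0 => mul_ne_zero hb' ha' (this.symm.trans h0)
  have hy0 : y ≠ 0 := by
    rw [hy, vq]
    have := cf_comp (S := Sp 0) (S' := Sp 2) (S'' := Sp 3) (D.h 0 2 c) (D.h 2 3 d) 1
    exact fun h0 => mul_ne_zero hd' hc' (this.symm.trans h0)
  obtain ⟨F, hF⟩ : ∃ F, F = Finsupp.single p y + Finsupp.single q (-x) := ⟨_, rfl⟩
  have hs : ∀ (r : Path D.Arr 0 3) (z : k), D.valF (Finsupp.single r z) = z • D.val r :=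
    fun r z => Finsupp.sum_single_index (zero_smul k (D.val r))
  have hadd : D.valF F = y • D.val p + (-x) • D.val q := by
    rw [← hs, ← hs, hF]
    exact Finsupp.sum_add_index' (fun p => zero_smul k (D.val p))
      (fun p c c' => add_smul c c' (D.val p))
  have hrel : D.InR F := by
    refine ⟨?_, X_ext _ _ _⟩
    rw [hadd]
    apply eq_zero_of_cf (S := Sp 0) (S' := Sp 3)
    intro v
    by_cases hv : v = 1
    · subst hv
      have e := cf_add (S := Sp 0) (S' := Sp 3) (y • (D.val p).1) ((-x) • (D.val q).1) 1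
      have e1 := cf_smul (S := Sp 0) (S' := Sp 3) y (D.val p).1 1
      have e2 := cf_smul (S := Sp 0) (S' := Sp 3) (-x) (D.val q).1 1
      refine e.trans ((congrArg₂ (· + ·) e1 e2).trans ?_)
      show y * cx (D.val p).1 + -x * cx (D.val q).1 = 0
      rw [← hx, ← hy]
      ring
    · apply cf_of_not
      revert hv
      revert v
      decide
  have hpF : p ∈ F.support := by
    rw [Finsupp.mem_support_iff, hF, Finsupp.add_apply, Finsupp.single_eq_same,
      Finsupp.single_eq_of_ne hpq, add_zero]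
    exact hy0
  have h1 := (hS _ _ F).1 hrel p hpF
  have h2 : D.InR (Finsupp.single p (1 : k)) := by
    rw [hS]
    intro r hr
    have hr' : r = p := by
      by_contra h
      exact (Finsupp.mem_support_iff.1 hr) (Finsupp.single_eq_of_ne h)
    rw [hr']
    exact h1
  have h3 := h2.1
  rw [hs, one_smul] at h3
  apply hx0
  rw [hx, h3]
  exact cf_zero (Sp 0) (Sp 3) 1

end Pool.Agent.R330.HE
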