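import Pool.Agent.R330.HE.Defs

set_option autoImplicit false

/-! Every collection has a Hom-Ext quiver. -/

namespace Pool.Agent.R330.HE

universe u

variable {k : Type u} [Field k] {Q : FQ}

lemma exists_lift {V : Type u} [AddCommGroup V] [Module k V] [FiniteDimensional k V]
    (N Rd : Submodule k V) (h : N ≤ Rd) : ∃ (n : ℕ) (b : Fin n → V),
      BasisMod b N Rd := by
  classical
  obtain ⟨R', hR'⟩ : ∃ R', R' = Rd.map N.mkQ := ⟨_, rfl⟩
  have hb : ∀ a : Fin (Module.finrank k R'), ∃ x ∈ Rd, N.mkQ x = (Module.finBasis k R' a : V ⧸ N) := by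
    intro a
    have h1 := (Module.finBasis k R' a).2
    generalize (Module.finBasis k R' a : V ⧸ N) = z at h1
    rw [hR', Submodule.mem_map] at h1
    exact h1
  choose b hb1 hb2 using hb
  have hspan : (Submodule.span k (Set.range b)).map N.mkQ = R' := by
    rw [Submodule.map_span, ← Set.range_comp]
    have : (N.mkQ ∘ b) = R'.subtype ∘ (Module.finBasis k R') := by
      funext a
      exact hb2 a
    rw [this, Set.range_comp, ← Submodule.map_span, (Module.finBasis k R').span_eq,
      Submodule.map_top, Submodule.range_subtype]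
  refine ⟨_, b, ?_, ?_⟩
  · have : (fun a => N.mkQ (b a)) = R'.subtype ∘ (Module.finBasis k R') := by
      funext a
      exact hb2 a
    have hli : LinearIndependent k fun a => N.mkQ (b a) := by
      rw [this]
      exact (Module.finBasis k R').linearIndependent.map' _ (Submodule.ker_subtype _)
    intro c hc
    funext a
    refine Fintype.linearIndependent_iff.1 hli c ?_ a
    have h1 : N.mkQ (∑ a, c a • b a) = 0 := by
      rw [Submodule.mkQ_apply, Submodule.Quotient.mk_eq_zero]
      exact hc
    rw [map_sum] at h1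
    simpa only [map_smul] using h1
  · have h1 : (Submodule.map N.mkQ (Submodule.span k (Set.range b))).comap N.mkQ
        = (Submodule.map N.mkQ Rd).comap N.mkQ := by rw [hspan, hR']
    rw [Submodule.comap_map_mkQ, Submodule.comap_map_mkQ] at h1
    rw [sup_comm, h1]
    exact sup_eq_right.2 h

lemma IsHom.comp {U V W : Rep k Q} {f : C0 U V} {g : C0 V W} (hf : IsHom f) (hg : IsHom g) :
    IsHom (comp f g) := by
  intro a
  show g _ * f _ * _ = _ * (g _ * f _)
  rw [Matrix.mul_assoc, hf a, ← Matrix.mul_assoc, hg a, Matrix.mul_assoc]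

lemma isHom_id (V : Rep k Q) : IsHom (idH V) := by
  intro a
  show (1 : Matrix _ _ k) * _ = _ * (1 : Matrix _ _ k)
  rw [Matrix.one_mul, Matrix.mul_one]

lemma IsRad.comp_left {U V W : Rep k Q} {g : C0 U V} (hg : IsRad g) {h : C0 V W} (hh : IsHom h) :
    IsRad (comp g h) := by
  refine ⟨hg.1.comp hh, fun f hf v => ?_⟩
  have := hg.2 (comp h f) (hh.comp hf) v
  rw [show (comp h f) v * g v = f v * (comp g h) v from Matrix.mul_assoc _ _ _] at this
  exact this

variable {m : ℕ} (χ : Fin m → Rep k Q)

lemma factH_le (i j : Fin m) : factH χ i j ≤ radH χ i j := by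
  apply Submodule.span_mono
  rintro f ⟨l, g, h, hg, hh, rfl⟩
  exact hg.comp_left hh.1

instance (V W : Rep k Q) : FiniteDimensional k (C0 V W) :=
  inferInstanceAs (FiniteDimensional k (∀ v, Matrix (W.idx v) (V.idx v) k))

instance (V W : Rep k Q) : FiniteDimensional k (C1 V W) :=
  inferInstanceAs (FiniteDimensional k (∀ a, Matrix (W.idx (Q.tgt a)) (V.idx (Q.src a)) k))

theorem exists_HEQ : Nonempty (HEQ χ) := by
  have h1 : ∀ i j, ∃ (n : ℕ) (b : Fin n → C0 (χ i) (χ j)),
      BasisMod b (factH χ i j) (radH χ i j) :=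
    fun i j => exists_lift _ _ (factH_le χ i j)
  have h2 : ∀ i j, ∃ (n : ℕ) (b : Fin n → C1 (χ i) (χ j)), BasisMod b (factE χ i j) ⊤ :=
    fun i j => exists_lift _ _ le_top
  choose nH h hi using h1
  choose nE e ei using h2
  exact ⟨⟨nH, nE, h, e, hi, ei⟩⟩

end Pool.Agent.R330.HE
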