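import Pool.Agent.R330.HE.Ex

set_option autoImplicit false

/-! The exceptional collection of the example. -/

namespace Pool.Agent.R330.HE

universe u

variable {k : Type u} [Field k]

lemma hom_zero {S S' : Fin 4 → Bool} {f : C0 (thin k S) (thin k S')} (hf : IsHom f)
    (h1 : ¬ (S 0 = true ∧ S' 0 = true) ∨
      ∃ a : Fin 3, S' 0 = true ∧ S a.succ = true ∧ ¬ S' a.succ = true)
    (h2 : ∀ a : Fin 3, S a.succ = true → S' a.succ = true → S' 0 = true) : f = 0 := by
  have h0 : cf f 0 = 0 := by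
    rcases h1 with h | ⟨a, h3, h4, h5⟩
    · exact cf_of_not _ _ h
    · rw [hom_cond hf a h3 h4]
      exact cf_of_not _ _ fun h => h5 h.2
  apply eq_zero_of_cf
  intro v
  refine Fin.cases h0 (fun a => ?_) v
  by_cases h : S a.succ = true ∧ S' a.succ = true
  · rw [← hom_cond hf a (h2 a h.1 h.2) h.1, h0]
  · exact cf_of_not _ _ h

lemma X_hom_zero (i j : Fin 4) (h : j < i ∨ (i = 1 ∧ j = 2)) {f : C0 (X k i) (X k j)}
    (hf : IsHom f) : f = 0 := by
  have h1 : ∀ i j : Fin 4, (j < i ∨ (i = 1 ∧ j = 2)) → (¬ (Sp i 0 = true ∧ Sp j 0 = true) ∨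
      ∃ a : Fin 3, Sp j 0 = true ∧ Sp i a.succ = true ∧ ¬ Sp j a.succ = true) := by decide
  have h2 : ∀ i j : Fin 4, (j < i ∨ (i = 1 ∧ j = 2)) →
      (∀ a : Fin 3, Sp i a.succ = true → Sp j a.succ = true → Sp j 0 = true) := by decide
  exact hom_zero hf (h1 i j h) (h2 i j h)

lemma cf_idH (S : Fin 4 → Bool) (v : Fin 4) (h : S v = true) : cf (idH (thin k S)) v = 1 := by
  rw [cf, dif_pos ⟨h, h⟩]
  exact Matrix.one_apply_eq _

lemma cf_X_const {i : Fin 4} {f : C0 (X k i) (X k i)} (hf : IsHom f) (v : Fin 4)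
    (h : Sp i v = true) : cf (S := Sp i) (S' := Sp i) f v = cf (S := Sp i) (S' := Sp i) f 1 := by
  have h1 := hom_cond (S := Sp i) (S' := Sp i) hf
  have key : ∀ (i v : Fin 4), Sp i v = true →
      v = 1 ∨ (v = 0 ∧ Sp i 0 = true ∧ Sp i 1 = true) ∨
        ∃ a : Fin 3, v = a.succ ∧ Sp i 0 = true ∧ Sp i a.succ = true ∧ Sp i 1 = true := by
    decide
  rcases key i v h with rfl | ⟨rfl, h2, h3⟩ | ⟨a, rfl, h2, h3, h4⟩
  · rfl
  · exact h1 0 h2 h3
  · rw [← h1 a h2 h3]
    exact h1 0 h2 h4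

lemma Sp_one (i : Fin 4) : Sp i 1 = true := by
  revert i
  decide

lemma cf_zero (S S' : Fin 4 → Bool) (v : Fin 4) : cf (0 : C0 (thin k S) (thin k S')) v = 0 := by
  rw [cf]
  split_ifs <;> rfl

lemma cf_sub {S S' : Fin 4 → Bool} (f g : C0 (thin k S) (thin k S')) (v : Fin 4) :
    cf (f - g) v = cf f v - cf g v := by
  by_cases h : S v = true ∧ S' v = true
  · rw [cf, dif_pos h, cf, dif_pos h, cf, dif_pos h]
    rfl
  · rw [cf_of_not _ _ h, cf_of_not _ _ h, cf_of_not _ _ h, sub_zero]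

lemma cf_add {S S' : Fin 4 → Bool} (f g : C0 (thin k S) (thin k S')) (v : Fin 4) :
    cf (f + g) v = cf f v + cf g v := by
  by_cases h : S v = true ∧ S' v = true
  · rw [cf, dif_pos h, cf, dif_pos h, cf, dif_pos h]
    rfl
  · rw [cf_of_not _ _ h, cf_of_not _ _ h, cf_of_not _ _ h, add_zero]

lemma cf_smul {S S' : Fin 4 → Bool} (c : k) (f : C0 (thin k S) (thin k S')) (v : Fin 4) :
    cf (c • f) v = c * cf f v := by
  by_cases h : S v = true ∧ S' v = true
  · rw [cf, dif_pos h, cf, dif_pos h]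
    rfl
  · rw [cf_of_not _ _ h, cf_of_not _ _ h, mul_zero]

lemma idem_cases {a : k} (h : a * a = a) : a = 0 ∨ a = 1 := by
  have h2 : a * (a - 1) = 0 := by rw [mul_sub, h, mul_one, sub_self]
  rcases mul_eq_zero.1 h2 with h3 | h3
  · exact Or.inl h3
  · exact Or.inr (sub_eq_zero.1 h3)

lemma X_indec (i : Fin 4) : Indec (X k i) := by
  constructor
  · intro h
    have h1 := cf_idH (k := k) (Sp i) 1 (Sp_one i)
    have h2 : idH (thin k (Sp i)) = 0 := h
    rw [h2, cf_zero] at h1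
    exact zero_ne_one h1
  · intro e he hee
    have h1 : cf (S := Sp i) (S' := Sp i) e 1 * cf (S := Sp i) (S' := Sp i) e 1
        = cf (S := Sp i) (S' := Sp i) e 1 := by
      rw [← cf_comp (S := Sp i) (S' := Sp i) (S'' := Sp i) e e 1]
      exact congrArg (fun z : C0 (X k i) (X k i) => cf (S := Sp i) (S' := Sp i) z 1) hee
    rcases idem_cases h1 with h | h
    · left
      apply eq_zero_of_cf (S := Sp i) (S' := Sp i)
      intro v
      by_cases hv : Sp i v = true
      · rw [cf_X_const he v hv, h]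
      · exact cf_of_not _ _ fun h' => hv h'.1
    · right
      rw [← sub_eq_zero]
      apply eq_zero_of_cf (S := Sp i) (S' := Sp i)
      intro v
      by_cases hv : Sp i v = true
      · have h2 := cf_X_const he v hv
        have h3 := cf_idH (k := k) (Sp i) v hv
        have h4 := cf_sub (S := Sp i) (S' := Sp i) e (idH (thin k (Sp i))) v
        rw [h2, h3, h, sub_self] at h4
        exact h4
      · exact cf_of_not _ _ fun h' => hv h'.1

lemma X_seq : IsExcSeq (X k) :=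
  ⟨fun i => ⟨X_indec i, fun ξ => X_ext i i ξ⟩,
    fun i j h => ⟨fun _ hf => X_hom_zero i j (Or.inl h) hf, fun ξ => X_ext i j ξ⟩⟩

lemma X_coll : IsExcColl (X k) := ⟨Equiv.refl _, X_seq⟩

lemma mulP {p : Prop} [Decidable p] [Fintype (PLift p)] (h : p)
    (A A' : Matrix (PLift p) (PLift p) k) :
    (A * A') ⟨h⟩ ⟨h⟩ = A ⟨h⟩ ⟨h⟩ * A' ⟨h⟩ ⟨h⟩ := by
  rw [Matrix.mul_apply, sumP, dif_pos h]

lemma rad_end {i : Fin 4} {f : C0 (X k i) (X k i)} (h : IsRad f) : f = 0 := by
  apply eq_zero_of_cf (S := Sp i) (S' := Sp i)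
  intro v
  by_cases hv : Sp i v = true
  · obtain ⟨n, hn⟩ := h.2 (idH _) (isHom_id _) v
    have e : ∀ n : ℕ, (((idH (X k i)) v * f v) ^ n : Matrix (PLift (Sp i v = true))
        (PLift (Sp i v = true)) k) ⟨hv⟩ ⟨hv⟩ = cf (S := Sp i) (S' := Sp i) f v ^ n := by
      intro n
      induction n with
      | zero => rw [pow_zero, pow_zero]; exact Matrix.one_apply_eq _
      | succ n ih =>
        rw [pow_succ, pow_succ]
        refine (mulP hv _ _).trans ?_
        refine congrArg₂ (· * ·) ih ?_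
        have : (idH (X k i)) v * f v = f v := Matrix.one_mul _
        rw [this]
        exact cf_eq (S := Sp i) (S' := Sp i) f v ⟨hv⟩ ⟨hv⟩
    have h2 := e n
    have h3 : (((idH (X k i)) v * f v) ^ n : Matrix (PLift (Sp i v = true))
        (PLift (Sp i v = true)) k) = 0 := hn
    rw [h3] at h2
    by_contra h4
    exact pow_ne_zero n h4 h2.symm
  · exact cf_of_not _ _ fun h' => hv h'.1

end Pool.Agent.R330.HE
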